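import Pool.Agent.T2H46.F20.Fin

/-! Copies of the pattern and sampling of maps. -/

set_option autoImplicit false
set_option maxRecDepth 100000
set_option maxHeartbeats 4000000
open Finset

namespace Pool.Agent.T2H46.F20
open Pool.Agent.H122R2.N6 Pool.Agent.H37R3.Pen Pool.Agent.H37R3.K5 Pool.Agent.H37R3.Lag Pool.Agent.H37R3.Cop Pool.Agent.H37R3.Cop5

/-- every five-tuple listed in the table contains `K_4^3` or is a copy of the pattern -/
theorem kF_cases {V : Type} {E : V → V → V → ℕ} (hE : Sy E) (a b c d e : V)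
    (h : kF (E a b c) (E a b d) (E a c d) (E b c d) (E a b e) (E a c e) (E b c e) (E a d e) (E b d e) (E c d e) = true) :
    five (E a b c) (E a b d) (E a c d) (E b c d) (E a b e) (E a c e) (E b c e) (E a d e) (E b d e) (E c d e) = true ∨
      ∃ i : Fin 5 → Fin 5, Function.Injective i ∧ Copy5 E mF (![a, b, c, d, e] ∘ i) := by
  obtain ⟨h1, h2⟩ := copy_cod hE a b c d e
  have hT := okF
  unfold tabF at hT
  rw [List.all_eq_true] at hT
  have h3 := hT _ (List.mem_range.mpr h1)
  have h' : Nat.beq (Nat.mod (Nat.shiftRight TF (cod (E a b c) (E a b d) (E a c d) (E b c d) (E a b e) (E a c e) (E b c e) (E a d e) (E b d e) (E c d e))) 2) 1 = true := h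
  rw [h', Bool.not_true, Bool.false_or, Bool.or_eq_true] at h3
  rcases h3 with h3 | h3
  · left
    have q0 := h2 0 1 2 (by decide) (by decide)
    have q1 := h2 0 1 3 (by decide) (by decide)
    have q2 := h2 0 2 3 (by decide) (by decide)
    have q3 := h2 1 2 3 (by decide) (by decide)
    have q4 := h2 0 1 4 (by decide) (by decide)
    have q5 := h2 0 2 4 (by decide) (by decide)
    have q6 := h2 1 2 4 (by decide) (by decide)
    have q7 := h2 0 3 4 (by decide) (by decide)
    have q8 := h2 1 3 4 (by decide) (by decide)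
    have q9 := h2 2 3 4 (by decide) (by decide)
    rw [show ti5 0 1 2 = 0 by decide] at q0
    rw [show ti5 0 1 3 = 1 by decide] at q1
    rw [show ti5 0 2 3 = 2 by decide] at q2
    rw [show ti5 1 2 3 = 3 by decide] at q3
    rw [show ti5 0 1 4 = 4 by decide] at q4
    rw [show ti5 0 2 4 = 5 by decide] at q5
    rw [show ti5 1 2 4 = 6 by decide] at q6
    rw [show ti5 0 3 4 = 7 by decide] at q7
    rw [show ti5 1 3 4 = 8 by decide] at q8
    rw [show ti5 2 3 4 = 9 by decide] at q9
    rw [← q0, ← q1, ← q2, ← q3, ← q4, ← q5, ← q6, ← q7, ← q8, ← q9] at h3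
    exact h3
  · right
    rw [List.any_eq_true] at h3
    obtain ⟨t, -, h4⟩ := h3
    rw [Bool.and_eq_true] at h4
    refine ⟨gp5 t.2, ?_, copy_of_iso5 hE h4.2 h2⟩
    have h5 := h4.2
    unfold isoB5 at h5
    rw [Bool.and_eq_true, decide_eq_true_eq] at h5
    exact h5.1

theorem five_false {V : Type} {E : V → V → V → ℕ} (hF : NoK4 E) (a b c d e : V) :
    five (E a b c) (E a b d) (E a c d) (E b c d) (E a b e) (E a c e) (E b c e) (E a d e) (E b d e) (E c d e) = false := by
  unfold five
  rw [hF a b c d, hF a b c e, hF a b d e, hF a c d e, hF b c d e]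
  rfl

/-- Turán's bound for structures on `Fin m` obtained from a structure without `K_4^3` by a map which
meets no copy. -/
theorem main_pull {V : Type} {E : V → V → V → ℕ} (hE : Sy E) (hF : NoK4 E) {m : ℕ}
    (x : Fin m → V) (hx : ∀ i : Fin 5 → Fin m, ¬ Copy5 E mF (x ∘ i)) :
    9 * TT (fun a b c => E (x a) (x b) (x c)) ≤ 5 * m ^ 3 := by
  have h := main (fun a b c : Fin m => E (x a) (x b) (x c))
    ⟨⟨fun _ _ _ => hE.b _ _ _, fun _ _ _ => hE.h213 _ _ _, fun _ _ _ => hE.h132 _ _ _⟩, ?_⟩
  · rwa [Fintype.card_fin] at h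
  · intro a b c d e
    by_contra hcon
    rw [Bool.not_eq_false] at hcon
    rcases kF_cases hE (x a) (x b) (x c) (x d) (x e) hcon with h | ⟨i, -, hi⟩
    · rw [five_false hF] at h
      exact absurd h (by decide)
    · refine hx (![a, b, c, d, e] ∘ i) ?_
      have : x ∘ (![a, b, c, d, e] ∘ i) = ![x a, x b, x c, x d, x e] ∘ i := by
        funext t
        simp only [Function.comp]
        generalize i t = s
        fin_cases s <;> rfl
      rw [this]
      exact hi

end Pool.Agent.T2H46.F20
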