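import Pool.Agent.H37R3.Lag.Main

/-! The exact upper bound from an inequality with degree multipliers. -/

set_option autoImplicit false
set_option maxRecDepth 100000
set_option maxHeartbeats 4000000
open Finset
open scoped Classical

namespace Pool.Agent.T2H46.F20
open Pool.Agent.H122R2.N6 Pool.Agent.H37R3.Pen Pool.Agent.H37R3.K5 Pool.Agent.H37R3.Lag

variable (kb : ℕ → ℕ → ℕ → ℕ → ℕ → ℕ → ℕ → ℕ → ℕ → ℕ → Bool)

/-- If the sum of the degree terms with positive weights is never positive, then `N / D` is an upper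
bound for the density. -/
theorem upper0 (c : ℕ → ℕ) (D N : ℕ) (hD : 0 < D) (hc : ∀ i, 1 ≤ c i)
    (core : ∀ {V : Type} [Fintype V] (E : V → V → V → ℕ), Cls kb E →
      ∑ x : Fin 6 → V, hh E c D N (x 0) (x 1) (x 2) (x 3) (x 4) (x 5) ≤ 0)
    {V : Type} [Fintype V] (E : V → V → V → ℕ) (hE : Cls kb E) :
    D * TT E ≤ N * Fintype.card V ^ 3 := by
  by_contra hcon
  rw [not_le] at hcon
  have hV : 0 < Fintype.card V := by
    rcases Nat.eq_zero_or_pos (Fintype.card V) with h | h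
    · have h2 := TT_le hE.1
      rw [h] at h2 hcon
      have h3 : TT E = 0 := by simpa using h2
      rw [h3] at hcon
      simp at hcon
    · exact h
  set p := sSup (dens kb) with hp
  have hDr : (0 : ℝ) < D := by exact_mod_cast hD
  have hVr : (0 : ℝ) < (Fintype.card V : ℝ) := by exact_mod_cast hV
  have hNp : (N : ℝ) < D * p := by
    have h2 := le_sup kb hE
    rw [← hp] at h2
    have h3 : (N : ℝ) * (Fintype.card V : ℝ) ^ 3 < D * TT E := by exact_mod_cast hcon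
    have h4 : (N : ℝ) * (Fintype.card V : ℝ) ^ 3 < (D * p) * (Fintype.card V : ℝ) ^ 3 := by
      calc _ < (D : ℝ) * TT E := h3
        _ ≤ D * (p * (Fintype.card V : ℝ) ^ 3) := mul_le_mul_of_nonneg_left h2 hDr.le
        _ = _ := by ring
    exact lt_of_mul_lt_mul_right h4 (by positivity)
  set θ : ℝ := D * p - N with hθ
  have hθ0 : 0 < θ := by rw [hθ]; linarith
  set ε : ℝ := θ / (2 * D) with hε
  have hε0 : 0 < ε := by rw [hε]; positivity
  have hDε : D * ε = θ / 2 := by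
    rw [hε]
    field_simp
  -- a structure of density close to the supremum
  have hne : (dens kb).Nonempty := ⟨_, V, _, E, hE, hV, rfl⟩
  obtain ⟨x, ⟨V1, _, E1, hE1, hV1, rfl⟩, hx⟩ := exists_lt_of_lt_csSup hne
    (show p - ε / 2 < sSup (dens kb) by rw [← hp]; linarith)
  obtain ⟨t, ht⟩ := exists_nat_gt (8 / ε)
  have ht0 : 0 < t := by
    have : (0 : ℝ) < t := lt_trans (by positivity) ht
    exact_mod_cast this
  set E2 : (V1 × Fin t) → (V1 × Fin t) → (V1 × Fin t) → ℕ := fun a b c => E1 a.1 b.1 c.1 with hE2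
  have hE2' : Cls kb E2 := hE1.pull Prod.fst
  obtain ⟨F, hF, hmax⟩ := exists_max hE2'
  set n : ℝ := (Fintype.card (V1 × Fin t) : ℝ) with hn
  have hcard : Fintype.card (V1 × Fin t) = Fintype.card V1 * t := by
    rw [Fintype.card_prod, Fintype.card_fin]
  have hn0 : 0 < n := by
    rw [hn, hcard]
    exact_mod_cast Nat.mul_pos hV1 ht0
  have hTF : (p - ε / 2) * n ^ 3 ≤ (TT F : ℝ) := by
    have h2 : TT E2 ≤ TT F := hmax E2 hE2'
    rw [hE2, TT_blow] at h2
    have h3 : (t : ℝ) ^ 3 * TT E1 ≤ TT F := by exact_mod_cast h2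
    have h4 : (0 : ℝ) < (Fintype.card V1 : ℝ) ^ 3 := by positivity
    rw [lt_div_iff₀ h4] at hx
    have ht3 : (0 : ℝ) ≤ (t : ℝ) ^ 3 := by positivity
    calc (p - ε / 2) * n ^ 3 = (t : ℝ) ^ 3 * ((p - ε / 2) * (Fintype.card V1 : ℝ) ^ 3) := by
          rw [hn, hcard]; push_cast; ring
      _ ≤ (t : ℝ) ^ 3 * TT E1 := mul_le_mul_of_nonneg_left hx.le ht3
      _ ≤ TT F := h3
  have hn8 : 4 * n ≤ ε / 2 * n ^ 2 := by
    have h2 : (t : ℝ) ≤ n := by
      rw [hn, hcard]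
      have : t ≤ Fintype.card V1 * t := Nat.le_mul_of_pos_left t hV1
      exact_mod_cast this
    have h3 : 8 / ε < n := lt_of_lt_of_le ht h2
    rw [div_lt_iff₀ hε0] at h3
    nlinarith
  have hA : ∀ a : V1 × Fin t, (p - ε) * n ^ 2 ≤ ∑ e, ∑ f, (F a e f : ℝ) := by
    intro a
    have h2 : ∀ v, (∑ e, ∑ f, (F v e f : ℝ)) ≤ ∑ e, ∑ f, (F a e f : ℝ) + 4 * n := by
      intro v
      have h3 := clone hF hmax a v
      rw [hn]
      exact_mod_cast h3
    have h3 : (TT F : ℝ) ≤ n * (∑ e, ∑ f, (F a e f : ℝ)) + 4 * n ^ 2 := by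
      have h4 : (TT F : ℝ) = ∑ v, ∑ e, ∑ f, (F v e f : ℝ) := by unfold TT; push_cast; rfl
      rw [h4]
      calc ∑ v, ∑ e, ∑ f, (F v e f : ℝ) ≤ ∑ v : V1 × Fin t, (∑ e, ∑ f, (F a e f : ℝ) + 4 * n) :=
            sum_le_sum fun v _ => h2 v
        _ = n * (∑ e, ∑ f, (F a e f : ℝ)) + 4 * n ^ 2 := by
            rw [sum_const, card_univ, nsmul_eq_mul, ← hn]
            ring
    have h5 : n * ((p - ε / 2) * n ^ 2) ≤ n * (∑ e, ∑ f, (F a e f : ℝ) + 4 * n) := by
      calc n * ((p - ε / 2) * n ^ 2) = (p - ε / 2) * n ^ 3 := by ring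
        _ ≤ (TT F : ℝ) := hTF
        _ ≤ n * (∑ e, ∑ f, (F a e f : ℝ)) + 4 * n ^ 2 := h3
        _ = _ := by ring
    have h6 := le_of_mul_le_mul_left h5 hn0
    linarith
  have hcore := core F hF
  rw [sum_hh] at hcore
  have hcore' : ∑ a : V1 × Fin t, (∑ b, ∑ x, ∑ y, (cl F c a b x y : ℝ)) *
      ((D : ℝ) * (∑ e, ∑ f, (F a e f : ℝ)) - N * n ^ 2) ≤ 0 := by
    rw [hn]
    exact_mod_cast hcore
  have hB : ∀ a : V1 × Fin t, n ^ 3 * (θ / 2 * n ^ 2) ≤ (∑ b, ∑ x, ∑ y, (cl F c a b x y : ℝ)) *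
      ((D : ℝ) * (∑ e, ∑ f, (F a e f : ℝ)) - N * n ^ 2) := by
    intro a
    have h1 : n ^ 3 ≤ ∑ b, ∑ x, ∑ y, (cl F c a b x y : ℝ) := by
      have h2 : ∑ b : V1 × Fin t, ∑ x : V1 × Fin t, ∑ y : V1 × Fin t, (1 : ℝ) = n ^ 3 := by
        simp only [sum_const, card_univ, nsmul_eq_mul, mul_one, ← hn]
        ring
      rw [← h2]
      refine sum_le_sum fun b _ => sum_le_sum fun x _ => sum_le_sum fun y _ => ?_
      unfold cl
      exact_mod_cast hc _
    have h3 : θ / 2 * n ^ 2 ≤ (D : ℝ) * (∑ e, ∑ f, (F a e f : ℝ)) - N * n ^ 2 := by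
      have h4 := mul_le_mul_of_nonneg_left (hA a) hDr.le
      have h5 : (D : ℝ) * ((p - ε) * n ^ 2) = (D * p - D * ε) * n ^ 2 := by ring
      rw [h5, hDε] at h4
      have h6 : (D : ℝ) * p = θ + N := by rw [hθ]; ring
      rw [h6] at h4
      nlinarith
    exact mul_le_mul h1 h3 (by positivity) (le_trans (by positivity) h1)
  have h7 : n * (n ^ 3 * (θ / 2 * n ^ 2)) ≤ 0 := by
    calc n * (n ^ 3 * (θ / 2 * n ^ 2)) = ∑ a : V1 × Fin t, n ^ 3 * (θ / 2 * n ^ 2) := by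
          rw [sum_const, card_univ, nsmul_eq_mul, ← hn]
      _ ≤ _ := sum_le_sum fun a _ => hB a
      _ ≤ 0 := hcore'
  have h8 : 0 < n * (n ^ 3 * (θ / 2 * n ^ 2)) := by positivity
  linarith

end Pool.Agent.T2H46.F20
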