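import Pool.Agent.T2H46.F20.Part00
import Pool.Agent.T2H46.F20.Part01
import Pool.Agent.T2H46.F20.Part10
import Pool.Agent.T2H46.F20.Part11
import Pool.Agent.T2H46.F20.Psd0
import Pool.Agent.T2H46.F20.Psd1
import Pool.Agent.T2H46.F20.Psd2
import Pool.Agent.T2H46.F20.Psd3
import Pool.Agent.T2H46.F20.Psd4
import Pool.Agent.T2H46.F20.Sym
import Pool.Agent.T2H46.F20.Upper

/-! Assembly of the certificate. -/

set_option autoImplicit false
set_option maxRecDepth 100000
set_option maxHeartbeats 4000000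
open Finset

namespace Pool.Agent.T2H46.F20
open Pool.Agent.H122R2.N6 Pool.Agent.H37R3.Pen Pool.Agent.H37R3.K5 Pool.Agent.H37R3.Lag Pool.Agent.H37R3.Cop5

theorem hc (b012 b013 b023 b123 b014 b024 b124 b034 b134 b234 : ℕ) (hb012 : Bt b012) (hb013 : Bt b013) (hb023 : Bt b023) (hb123 : Bt b123) (hb014 : Bt b014) (hb024 : Bt b024) (hb124 : Bt b124) (hb034 : Bt b034) (hb134 : Bt b134) (hb234 : Bt b234) (ht : tg5 b012 b013 b023 b123 b014 b024 b124 b034 b134 b234 = 4) :
    chkG kF q4 q2 g3 0 CST b012 b013 b023 b123 b014 b024 b124 b034 b134 b234 = true := by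
  have h : part b012 b013 = true := by
    rcases hb012 with rfl | rfl <;> rcases hb013 with rfl | rfl
    exacts [part00, part01, part10, part11]
  have h2 := (B2_true (B2_true (B2_true (B2_true (B2_true (B2_true (B2_true (B2_true h hb023) hb123) hb014) hb024) hb124) hb034) hb134) hb234)
  refine or_false_left h2 ?_
  rw [ht]
  rfl

theorem rng : (nall 16 fun c => and (Nat.blt (rho c) 5) (nall 64 fun i => Nat.blt (pc c i) 64)) = true := by
  decide +kernel

theorem rho_lt {c : ℕ} (h : c < 16) : rho c < 5 := by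
  have := nall_true rng c h
  rw [Bool.and_eq_true] at this
  exact Nat.le_of_ble_eq_true this.1

theorem pc_lt {c i : ℕ} (h : c < 16) (hi : i < 64) : pc c i < 64 := by
  have := nall_true rng c h
  rw [Bool.and_eq_true] at this
  exact Nat.le_of_ble_eq_true (nall_true this.2 i hi)

theorem g4_all {r i j : ℕ} (hr : r < 5) (hi : i < 64) (hj : j < 64) : g4 r i j = true := by
  have h : chk4 r = true := by
    interval_cases r
    exacts [cp0, cp1, cp2, cp3, cp4]
  exact nall_true (nall_true h i hi) j hj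

theorem expand (s : Finset ℕ) (w u v : ℕ → ℕ) (B : ℤ) :
    ∑ k ∈ s, (w k : ℤ) * ((u k : ℤ) - B) * ((v k : ℤ) - B) =
      ∑ k ∈ s, (w k : ℤ) * ((u k : ℤ) * (v k : ℤ)) + B ^ 2 * ∑ k ∈ s, (w k : ℤ)
        - B * (∑ k ∈ s, (w k : ℤ) * (u k : ℤ) + ∑ k ∈ s, (w k : ℤ) * (v k : ℤ)) := by
  rw [mul_add, mul_sum, mul_sum, mul_sum, ← sum_add_distrib, ← sum_add_distrib, ← sum_sub_distrib]
  exact sum_congr rfl fun k _ => by ring

theorem hq4 (c i j : ℕ) (hc : c < 16) (hi : i < 64) (hj : j < 64) : (q4 c i j : ℤ) =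
    ∑ k ∈ range 69, (w4 (rho c) k : ℤ) * ((l4 (rho c) (pc c i) k : ℤ) - 32768) *
      ((l4 (rho c) (pc c j) k : ℤ) - 32768) + 1099511627776 := by
  have h := Nat.eq_of_beq_eq_true (g4_all (rho_lt hc) (pc_lt hc hi) (pc_lt hc hj))
  unfold ll sw sl at h
  rw [nsum_eq, nsum_eq, nsum_eq, nsum_eq] at h
  have h2 := congrArg (fun n : ℕ => (n : ℤ)) h
  simp only [Nat.add_eq, Nat.mul_eq] at h2
  push_cast at h2
  rw [expand (range 69) (fun k => w4 (rho c) k) (fun k => l4 (rho c) (pc c i) k)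
    (fun k => l4 (rho c) (pc c j) k) 32768]
  have h3 : (q4 c i j : ℤ) = (tq (rho c) (pc c i) (pc c j) : ℤ) := rfl
  rw [h3]
  linarith

theorem hq2 (i j : ℕ) (hi : i < 16) (hj : j < 16) : (q2 i j : ℤ) =
    ∑ k ∈ range 9, (w2 k : ℤ) * ((l2 i k : ℤ) - 32768) * ((l2 j k : ℤ) - 32768)
      + (1099511627776 + ((rP cF 9 i j : ℤ) - (rM cF 5 i j : ℤ))) := by
  have h := Nat.eq_of_beq_eq_true (nall_true (nall_true cpb i hi) j hj)
  unfold ll2 sw2 sl2 at h
  rw [nsum_eq, nsum_eq, nsum_eq, nsum_eq] at h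
  have h2 := congrArg (fun n : ℕ => (n : ℤ)) h
  simp only [Nat.add_eq, Nat.mul_eq] at h2
  push_cast at h2
  rw [expand (range 9) (fun k => w2 k) (fun k => l2 i k) (fun k => l2 j k) 32768]
  linarith

theorem sumF3_zero {V : Type} [Fintype V] (E : V → V → V → ℕ) (hE : Sy E) :
    ∑ x : Fin 6 → V, (F3 E g3 0 (x 0) (x 1) (x 2) (x 3) (x 4) (x 5) : ℤ) = 0 := by
  refine sum_eq_zero fun x _ => ?_
  rw [F3_val E hE (fun _ => 0) 9 5 0 g3 (fun s t _ _ => by simp [g3])]
  simp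

theorem cF_pos (i : ℕ) : 1 ≤ cF i := by
  unfold cF
  simp only [Nat.mul_eq]
  cases Nat.beq i 3 <;> simp

/-- Turán's bound for structures without the pattern. -/
theorem main {V : Type} [Fintype V] (E : V → V → V → ℕ) (hE : Cls kF E) :
    9 * TT E ≤ 5 * Fintype.card V ^ 3 := by
  refine upper0 kF cF 9 5 (by norm_num) cF_pos ?_ E hE
  intro V _ E hE
  have h := boundG E hE.1 69 9 CST q4 (fun c k => w4 (rho c) k) (fun c i k => l4 (rho c) (pc c i) k)
    q2 w2 l2 32768 1099511627776 1099511627776 cF 9 5 g3 0 hq4 hq2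
    (leafG_all hE.1 (by decide +kernel) hE.2 cs4 cs2 hc)
  rw [sumF3_zero E hE.1] at h
  have e : (CST : ℤ) = 15 * 1099511627776 + 45 * 1099511627776 := by unfold CST; norm_num
  rw [e] at h
  linarith

end Pool.Agent.T2H46.F20
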