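import Pool.Agent.T2H46.F20.Samp

/-! Labelled copies and vertex sets which induce a copy. -/

set_option autoImplicit false
set_option maxRecDepth 100000
set_option maxHeartbeats 4000000
open Finset
open scoped Classical

namespace Pool.Agent.T2H46.F20
open Pool.Agent.H122R2.N6 Pool.Agent.H37R3.Pen Pool.Agent.H37R3.K5 Pool.Agent.H37R3.Lag Pool.Agent.H37R3.Cop Pool.Agent.H37R3.Cop5

/-- the automorphisms of the pattern -/
def Aut (s : Fin 5 → Fin 5) : Prop :=
  Function.Injective s ∧ ∀ i j k : Fin 5, i < j → j < k → bt mF (ti5 (s i) (s j) (s k)) = bt mF (ti5 i j k)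

instance : DecidablePred Aut := fun s => by unfold Aut; infer_instance

def autL : List (Fin 5 → Fin 5) :=
  (List.finRange 5).flatMap fun a => (List.finRange 5).flatMap fun b => (List.finRange 5).flatMap fun c =>
    (List.finRange 5).flatMap fun d => (List.finRange 5).map fun e => ![a, b, c, d, e]

theorem aut_two (a b c d e : Fin 5) (h : Aut ![a, b, c, d, e]) :
    ![a, b, c, d, e] = (![0, 1, 2, 3, 4] : Fin 5 → Fin 5) ∨ ![a, b, c, d, e] = (![0, 2, 1, 3, 4] : Fin 5 → Fin 5) := by
  revert a b c d e
  decide +kernel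

theorem aut_card : ((univ : Finset (Fin 5 → Fin 5)).filter Aut).card ≤ 2 := by
  have h : ((univ : Finset (Fin 5 → Fin 5)).filter Aut) ⊆
      {(![0, 1, 2, 3, 4] : Fin 5 → Fin 5), (![0, 2, 1, 3, 4] : Fin 5 → Fin 5)} := by
    intro s hs
    have h1 := (mem_filter.mp hs).2
    have e : s = ![s 0, s 1, s 2, s 3, s 4] := by
      funext i
      fin_cases i <;> rfl
    rw [e] at h1
    rw [mem_insert, mem_singleton, e]
    exact aut_two _ _ _ _ _ h1
  exact (card_le_card h).trans (card_insert_le _ _)

variable {V : Type} [Fintype V] [DecidableEq V]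

theorem fib_card {E : V → V → V → ℕ} (hE : Sy E)
    (hinj : ∀ f : Fin 5 → V, Copy5 E mF f → Function.Injective f) (S : Finset V) :
    ((univ : Finset (Fin 5 → V)).filter fun f => Copy5 E mF f ∧ univ.image f = S).card ≤ 2 := by
  rcases (((univ : Finset (Fin 5 → V)).filter fun f => Copy5 E mF f ∧ univ.image f = S)).eq_empty_or_nonempty with h | ⟨f0, h0⟩
  · rw [h]; simp
  · obtain ⟨-, hc0, hS0⟩ := mem_filter.mp h0
    have key : ∀ f : Fin 5 → V, univ.image f = S → ∃ s : Fin 5 → Fin 5, ∀ i, f0 (s i) = f i := by
      intro f hf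
      have : ∀ i, ∃ j, f0 j = f i := by
        intro i
        have h1 : f i ∈ univ.image f := mem_image_of_mem _ (mem_univ _)
        rw [hf, ← hS0, mem_image] at h1
        obtain ⟨j, -, hj⟩ := h1
        exact ⟨j, hj⟩
      choose s hs using this
      exact ⟨s, hs⟩
    let σ : (Fin 5 → V) → (Fin 5 → Fin 5) := fun f => if h : univ.image f = S then (key f h).choose else id
    have hσ : ∀ f : Fin 5 → V, univ.image f = S → ∀ i, f0 (σ f i) = f i := by
      intro f hf
      simp only [σ, dif_pos hf]
      exact (key f hf).choose_spec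
    refine le_trans (card_le_card_of_injOn σ (t := (univ : Finset (Fin 5 → Fin 5)).filter Aut) ?_ ?_) aut_card
    · intro f hf
      obtain ⟨-, hc, hS⟩ := mem_filter.mp hf
      have h1 := hσ f hS
      have hi : Function.Injective (σ f) := by
        intro i j hij
        apply hinj f hc
        rw [← h1 i, ← h1 j, hij]
      rw [mem_coe, mem_filter]
      refine ⟨mem_univ _, hi, fun i j k hij hjk => ?_⟩
      rw [← hc i j k hij hjk, ← h1 i, ← h1 j, ← h1 k]
      exact (hc0.full hE _ _ _ (fun e => hij.ne (hi e)) (fun e => (hij.trans hjk).ne (hi e))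
        (fun e => hjk.ne (hi e))).symm
    · intro f hf g hg hfg
      have h1 := hσ f (mem_filter.mp hf).2.2
      have h2 := hσ g (mem_filter.mp hg).2.2
      funext i
      rw [← h1 i, ← h2 i, hfg]

/-- the number of labelled copies is at most twice the number of vertex sets of copies -/
theorem lab_le {E : V → V → V → ℕ} (hE : Sy E)
    (hinj : ∀ f : Fin 5 → V, Copy5 E mF f → Function.Injective f) :
    lab E ≤ 2 * ((univ : Finset (Finset V)).filter fun S => ∃ f : Fin 5 → V, Copy5 E mF f ∧ univ.image f = S).card := by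
  unfold lab
  have h := card_le_mul_card_image_of_maps_to
    (s := (univ : Finset (Fin 5 → V)).filter fun f => Copy5 E mF f) (f := fun f => univ.image f)
    (t := (univ : Finset (Finset V)).filter fun S => ∃ f : Fin 5 → V, Copy5 E mF f ∧ univ.image f = S)
    (fun f hf => mem_filter.mpr ⟨mem_univ _, f, (mem_filter.mp hf).2, rfl⟩) 2
    (fun S _ => by
      rw [filter_filter]
      exact fib_card hE hinj S)
  exact h

end Pool.Agent.T2H46.F20
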