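import Pool.Agent.H37R3.Cop5

/-! The structures on five vertices which contain `K_4^3` or are isomorphic to the pattern. -/

set_option autoImplicit false
set_option maxRecDepth 100000
set_option maxHeartbeats 4000000
open Finset

namespace Pool.Agent.T2H46.F20
open Pool.Agent.H122R2.N6 Pool.Agent.H37R3.Pen Pool.Agent.H37R3.K5 Pool.Agent.H37R3.Lag Pool.Agent.H37R3.Cop Pool.Agent.H37R3.Cop5

def TF : ℕ := 0xfffefff0ffccff02fcfcf0f2ccce8228ffaaff04ff10ff008000842090088000fafaf0f480008240f1f0f0f090088000aaae84489008800090088000e8808000eeee8000ccdc8240cdcc8420cccc8000aaba8420906080008420e88080008000abaa82408240e8809600800080008000aaaa8000800080008000800080008000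

def kF (b012 b013 b023 b123 b014 b024 b124 b034 b134 b234 : ℕ) : Bool := Nat.beq (Nat.mod (Nat.shiftRight TF (Nat.add b012 (Nat.add (Nat.mul 2 b013) (Nat.add (Nat.mul 4 b023) (Nat.add (Nat.mul 8 b123) (Nat.add (Nat.mul 16 b014) (Nat.add (Nat.mul 32 b024) (Nat.add (Nat.mul 64 b124) (Nat.add (Nat.mul 128 b034) (Nat.add (Nat.mul 256 b134) (Nat.mul 512 b234))))))))))) 2) 1

/-- the pattern `012 014 024 034 123` -/
def mF : ℕ := 185

def LF : List (ℕ × ℕ) := [(185, 18056), (186, 17608), (188, 17104), (199, 14472), (203, 10433), (205, 6338), (206, 2187), (214, 13576), (217, 9985), (230, 13072), (233, 5890), (248, 1676), (295, 10440), (299, 14465), (301, 2250), (302, 6275), (309, 9992), (314, 13569), (341, 18049), (342, 17601), (348, 16593), (357, 1802), (362, 12561), (372, 5764), (421, 8984), (426, 5379), (440, 1228), (454, 1291), (457, 8473), (468, 5316), (535, 6352), (539, 2257), (541, 14402), (542, 10307), (563, 5904), (572, 13058), (595, 1809), (604, 12554), (611, 17986), (614, 17090), (618, 16586), (626, 9796), (659, 5400), (668, 8963), (696, 724),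 (710, 787), (713, 4378), (738, 8900), (787, 1305), (796, 8459), (805, 794), (810, 4371), (852, 4308), (866, 8396), (899, 17475), (901, 17027), (905, 16523), (913, 13380), (929, 12932), (961, 12428)]

/-- all structures listed in `TF` contain a complete quadruple or are isomorphic to the pattern -/
def tabF : Bool :=
  (List.range 1024).all fun c => !(Nat.beq (Nat.mod (Nat.shiftRight TF c) 2) 1) ||
    five (bt c 0) (bt c 1) (bt c 2) (bt c 3) (bt c 4) (bt c 5) (bt c 6) (bt c 7) (bt c 8) (bt c 9) ||
    LF.any fun t => t.1 == c && isoB5 c mF t.2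

theorem okF : tabF = true := by decide +kernel

end Pool.Agent.T2H46.F20
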