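import Pool.Agent.T2H46.F20.Cpy

/-! Few copies: averaging over all maps from `m` points. -/

set_option autoImplicit false
set_option maxHeartbeats 4000000
open Finset
open scoped Classical

namespace Pool.Agent.T2H46.F20
open Pool.Agent.H122R2.N6 Pool.Agent.H37R3.Pen Pool.Agent.H37R3.K5 Pool.Agent.H37R3.Lag Pool.Agent.H37R3.Cop Pool.Agent.H37R3.Cop5

theorem sum_comp {m k : ℕ} {V : Type} [Fintype V] (i : Fin k → Fin m) (hi : Function.Injective i)
    (g : (Fin k → V) → ℕ) :
    ∑ x : Fin m → V, g (x ∘ i) = Fintype.card V ^ (m - k) * ∑ f : Fin k → V, g f := by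
  set P : Fin m → Prop := fun t => t ∈ Set.range i with hP
  have e1 := Equiv.sum_comp (Equiv.piEquivPiSubtypeProd P (fun _ : Fin m => V)).symm
    (fun x : Fin m → V => g (x ∘ i))
  rw [← e1, Fintype.sum_prod_type]
  let e : Fin k ≃ {t // P t} := Equiv.ofInjective i hi
  have e2 : ∀ (y : {t // P t} → V) (z : {t // ¬ P t} → V),
      g (((Equiv.piEquivPiSubtypeProd P (fun _ : Fin m => V)).symm (y, z)) ∘ i) = g (y ∘ e) := by
    intro y z
    congr 1
    funext t
    simp only [Function.comp, Equiv.piEquivPiSubtypeProd_symm_apply]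
    rw [dif_pos (show P (i t) from ⟨t, rfl⟩)]
    rfl
  simp only [e2]
  simp only [sum_const, card_univ, smul_eq_mul]
  have e3 : Fintype.card ({t // ¬ P t} → V) = Fintype.card V ^ (m - k) := by
    rw [Fintype.card_fun]
    congr 1
    rw [Fintype.card_subtype_compl, Fintype.card_fin]
    congr 1
    rw [← Fintype.card_congr e, Fintype.card_fin]
  rw [e3, ← mul_sum]
  congr 1
  exact Equiv.sum_comp (Equiv.arrowCongr e (Equiv.refl V)).symm (fun f : Fin k → V => g f)

/-- the number of labelled copies -/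
noncomputable def lab {V : Type} [Fintype V] (E : V → V → V → ℕ) : ℕ :=
  ((univ : Finset (Fin 5 → V)).filter fun f => Copy5 E mF f).card

theorem card_inj (k m : ℕ) : ((univ : Finset (Fin k → Fin m)).filter Function.Injective).card ≤ m ^ k := by
  refine (card_filter_le _ _).trans ?_
  rw [card_univ, Fintype.card_fun, Fintype.card_fin, Fintype.card_fin]

theorem inj3 (m : ℕ) : ((univ : Finset (Fin 3 → Fin m)).filter Function.Injective).card = m * (m - 1) * (m - 2) := by
  have h : ((univ : Finset (Fin 3 → Fin m)).filter Function.Injective).card = Fintype.card (Fin 3 ↪ Fin m) := by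
    rw [← Fintype.card_subtype]
    exact Fintype.card_congr (Equiv.subtypeInjectiveEquivEmbedding (Fin 3) (Fin m))
  rw [h, Fintype.card_embedding_eq, Fintype.card_fin, Fintype.card_fin]
  simp [Nat.descFactorial]
  ring

theorem sumTT {V : Type} [Fintype V] (E : V → V → V → ℕ) (m : ℕ) :
    m * (m - 1) * (m - 2) * (Fintype.card V ^ (m - 3) * TT E) ≤
      ∑ x : Fin m → V, TT (fun a b c => E (x a) (x b) (x c)) := by
  have h1 : ∀ x : Fin m → V, TT (fun a b c => E (x a) (x b) (x c)) =
      ∑ i : Fin 3 → Fin m, E (x (i 0)) (x (i 1)) (x (i 2)) := by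
    intro x
    unfold TT
    have e := Fin.consEquiv (fun _ : Fin 3 => Fin m)
    rw [← (Fin.consEquiv (fun _ : Fin 3 => Fin m)).sum_comp, Fintype.sum_prod_type]
    refine sum_congr rfl fun a _ => ?_
    rw [← (Fin.consEquiv (fun _ : Fin 2 => Fin m)).sum_comp, Fintype.sum_prod_type]
    refine sum_congr rfl fun b _ => ?_
    rw [← (Fin.consEquiv (fun _ : Fin 1 => Fin m)).sum_comp, Fintype.sum_prod_type]
    refine sum_congr rfl fun c _ => ?_
    rw [Fintype.sum_unique]
    rfl
  simp only [h1]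
  rw [sum_comm]
  have h2 : TT E = ∑ f : Fin 3 → V, E (f 0) (f 1) (f 2) := by
    unfold TT
    rw [← (Fin.consEquiv (fun _ : Fin 3 => V)).sum_comp, Fintype.sum_prod_type]
    refine sum_congr rfl fun a _ => ?_
    rw [← (Fin.consEquiv (fun _ : Fin 2 => V)).sum_comp, Fintype.sum_prod_type]
    refine sum_congr rfl fun b _ => ?_
    rw [← (Fin.consEquiv (fun _ : Fin 1 => V)).sum_comp, Fintype.sum_prod_type]
    refine sum_congr rfl fun c _ => ?_
    rw [Fintype.sum_unique]
    rfl
  calc m * (m - 1) * (m - 2) * (Fintype.card V ^ (m - 3) * TT E)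
      = ∑ i ∈ (univ : Finset (Fin 3 → Fin m)).filter Function.Injective, Fintype.card V ^ (m - 3) * TT E := by
        rw [sum_const, inj3, smul_eq_mul]
    _ = ∑ i ∈ (univ : Finset (Fin 3 → Fin m)).filter Function.Injective,
          ∑ x : Fin m → V, E (x (i 0)) (x (i 1)) (x (i 2)) := by
        refine sum_congr rfl fun i hi => ?_
        have h3 := sum_comp (V := V) i (mem_filter.mp hi).2 (fun f => E (f 0) (f 1) (f 2))
        simp only [Function.comp] at h3
        rw [h3, h2]
    _ ≤ _ := sum_le_sum_of_subset (filter_subset _ _)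

/-- the maps which meet a copy -/
theorem bad_card {V : Type} [Fintype V] {E : V → V → V → ℕ} (m : ℕ)
    (hinj : ∀ f : Fin 5 → V, Copy5 E mF f → Function.Injective f) :
    ((univ : Finset (Fin m → V)).filter fun x => ∃ i : Fin 5 → Fin m, Copy5 E mF (x ∘ i)).card ≤
      m ^ 5 * (Fintype.card V ^ (m - 5) * lab E) := by
  have h1 : ((univ : Finset (Fin m → V)).filter fun x => ∃ i : Fin 5 → Fin m, Copy5 E mF (x ∘ i)) ⊆
      ((univ : Finset (Fin 5 → Fin m)).filter Function.Injective).biUnion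
        fun i => univ.filter fun x : Fin m → V => Copy5 E mF (x ∘ i) := by
    intro x hx
    obtain ⟨i, hi⟩ := (mem_filter.mp hx).2
    rw [mem_biUnion]
    exact ⟨i, mem_filter.mpr ⟨mem_univ _, (hinj _ hi).of_comp⟩, mem_filter.mpr ⟨mem_univ _, hi⟩⟩
  refine (card_le_card h1).trans (card_biUnion_le.trans ?_)
  calc ∑ i ∈ (univ : Finset (Fin 5 → Fin m)).filter Function.Injective,
        (univ.filter fun x : Fin m → V => Copy5 E mF (x ∘ i)).card
      = ∑ i ∈ (univ : Finset (Fin 5 → Fin m)).filter Function.Injective,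
          Fintype.card V ^ (m - 5) * lab E := by
        refine sum_congr rfl fun i hi => ?_
        have h3 := sum_comp (V := V) i (mem_filter.mp hi).2 (fun f => if Copy5 E mF f then 1 else 0)
        unfold lab
        rw [card_filter, card_filter, h3]
    _ ≤ m ^ 5 * (Fintype.card V ^ (m - 5) * lab E) := by
        rw [sum_const, smul_eq_mul]
        exact Nat.mul_le_mul_right _ (card_inj 5 m)

theorem samp {V : Type} [Fintype V] {E : V → V → V → ℕ} (hE : Sy E) (hF : NoK4 E)
    (hinj : ∀ f : Fin 5 → V, Copy5 E mF f → Function.Injective f) (m : ℕ) :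
    9 * (m * (m - 1) * (m - 2) * (Fintype.card V ^ (m - 3) * TT E)) ≤
      5 * m ^ 3 * Fintype.card V ^ m + 9 * m ^ 3 * (m ^ 5 * (Fintype.card V ^ (m - 5) * lab E)) := by
  refine (Nat.mul_le_mul_left 9 (sumTT E m)).trans ?_
  rw [mul_sum]
  have h1 : ∀ x : Fin m → V, 9 * TT (fun a b c => E (x a) (x b) (x c)) ≤
      5 * m ^ 3 + 9 * m ^ 3 * (if ∃ i : Fin 5 → Fin m, Copy5 E mF (x ∘ i) then 1 else 0) := by
    intro x
    split_ifs with h
    · have h2 := TT_le (V := Fin m) (E := fun a b c => E (x a) (x b) (x c))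
        ⟨fun _ _ _ => hE.b _ _ _, fun _ _ _ => hE.h213 _ _ _, fun _ _ _ => hE.h132 _ _ _⟩
      rw [Fintype.card_fin] at h2
      omega
    · push Not at h
      have := main_pull hE hF x h
      omega
  refine (sum_le_sum fun x _ => h1 x).trans ?_
  rw [sum_add_distrib, sum_const, ← mul_sum, ← card_filter, card_univ, Fintype.card_fun, Fintype.card_fin,
    smul_eq_mul]
  have h2 := Nat.mul_le_mul_left (9 * m ^ 3) (bad_card (E := E) m hinj)
  have h3 : Fintype.card V ^ m * (5 * m ^ 3) = 5 * m ^ 3 * Fintype.card V ^ m := by ring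
  rw [h3]
  exact Nat.add_le_add_left h2 _

/-- the inequality after cancellation -/
theorem samp_div {V : Type} [Fintype V] [Nonempty V] {E : V → V → V → ℕ} (hE : Sy E) (hF : NoK4 E)
    (hinj : ∀ f : Fin 5 → V, Copy5 E mF f → Function.Injective f) (m : ℕ) (hm : 5 ≤ m) :
    9 * ((m - 1) * (m - 2)) * (Fintype.card V ^ 2 * TT E) ≤
      5 * m ^ 2 * Fintype.card V ^ 5 + 9 * m ^ 7 * lab E := by
  have h := samp hE hF hinj m
  have hc : 0 < Fintype.card V := Fintype.card_pos
  obtain ⟨t, rfl⟩ : ∃ t, m = t + 5 := ⟨m - 5, by omega⟩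
  have e1 : t + 5 - 3 = t + 2 := by omega
  have e2 : t + 5 - 5 = t := by omega
  rw [e1, e2] at h
  have hp : 0 < (t + 5) * Fintype.card V ^ t := by positivity
  refine Nat.le_of_mul_le_mul_left ?_ hp
  generalize Fintype.card V = c at *
  calc (t + 5) * c ^ t * (9 * ((t + 5 - 1) * (t + 5 - 2)) * (c ^ 2 * TT E))
      = 9 * ((t + 5) * (t + 5 - 1) * (t + 5 - 2) * (c ^ (t + 2) * TT E)) := by ring
    _ ≤ _ := h
    _ = (t + 5) * c ^ t * (5 * (t + 5) ^ 2 * c ^ 5 + 9 * (t + 5) ^ 7 * lab E) := by ring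

end Pool.Agent.T2H46.F20
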